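import Mathlib
import Pool.Agent.R404.WZ.N

/-!
# Zagier's conjecture: relations of small height between multiple zeta values have large corank

Let `0 < η < 1`, `γ < 1 - η` and `ε > 0`. There is a number `D` such that for every large `N` there is a
set `T` of at least `N ^ η` admissible indices of weight `N` and depth `D` with the following
property: for every set `H` of admissible indices, of arbitrary weights `≤ κ N`, with at least `ε N`
arguments `≥ 2`, the integral relations between `1` and the multiple zeta values with indices in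
`T ∪ H`, with coefficients at most `2 ^ (N ^ γ)` on `T` and at most `C ^ N` on `H`, span a space of
codimension at least `1 + |T|`.
-/

set_option autoImplicit false

namespace Pool.Agent.Results.MP_2000e9_nt.Corank

/-- `trunc [s_1, ..., s_r] m` is the sum of `∏ k_i ^ (-s_i)` over `m > k_1 > ... > k_r ≥ 1` -/
noncomputable def trunc : List ℕ → ℕ → ℝ
  | [], _ => 1
  | s :: l, m => ∑ j ∈ Finset.Ico 1 m, trunc l j / (j : ℝ) ^ s

/-- the multiple zeta value `ζ(n_r, ..., n_1)` of the problem for the list `[n_r, ..., n_1]`: the first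
entry of the list belongs to the largest variable; the value of the empty list is `1` -/
noncomputable def mzv : List ℕ → ℝ
  | [] => 1
  | s :: l => ∑' m : ℕ, trunc l (m + 1) / ((m + 1 : ℕ) : ℝ) ^ s

/-- the number of arguments `≥ 2` -/
def height (w : List ℕ) : ℕ := w.countP (fun s => decide (2 ≤ s))

/-- nonempty lists of positive integers, the first one at least `2` -/
def Admissible (w : List ℕ) : Prop := (∀ x ∈ w, 1 ≤ x) ∧ ∃ a ∈ w.head?, 2 ≤ a

/-- the integral relations `∑_W v_w ζ(w) = 0` with `|v_w| ≤ A` for `w` in `T` and `|v_w| ≤ B` for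
`w` in `H` -/
def relations (W T H : Finset (List ℕ)) (A B : ℝ) : Set (W → ℚ) :=
  {v | (∀ w, ∃ z : ℤ, v w = z) ∧ (∀ w : W, (w : List ℕ) ∈ T → |(v w : ℝ)| ≤ A) ∧
    (∀ w : W, (w : List ℕ) ∈ H → |(v w : ℝ)| ≤ B) ∧ ∑ w : W, (v w : ℝ) * mzv w = 0}

lemma trunc_eq (w : List ℕ) : ∀ m, trunc w m = Pool.Agent.Y760.ZG.hr w m := by
  induction w with
  | nil => intro m; rw [trunc, Pool.Agent.Y760.ZG.hr_nil]
  | cons s w ih =>
    intro m
    rw [trunc, Pool.Agent.Y760.ZG.hr_cons]
    exact Finset.sum_congr rfl fun j _ => by rw [ih]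

lemma mzv_eq : mzv = Pool.Agent.Y760.ZG.mz := by
  funext w
  cases w with
  | nil => rw [mzv, Pool.Agent.Y760.ZG.mz]
  | cons s w =>
    rw [mzv, Pool.Agent.Y760.ZG.mz]
    exact tsum_congr fun m => by rw [trunc_eq]

/-- Let `0 < η < 1`, `γ + η < 1`, `0 < ε` and let `κ, C` be real numbers. There is a number `D ≥ 2`
such that for every large `N` there is a set `T` of at least `N ^ η` admissible indices of weight `N`
and depth `D` with the following property: for every finite set `H`, disjoint from `T`, of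
admissible indices of weight at most `κ N` with at least `ε N` arguments `≥ 2`, the integral relations
between the multiple zeta values with indices in `W = {∅} ∪ T ∪ H`, with coefficients at most
`2 ^ (N ^ γ)` on `T` and at most `C ^ N` on `H`, span a subspace of `ℚ ^ W` of codimension at least
`1 + |T|`. -/
theorem result (κ C η γ ε : ℝ) (hη : 0 < η) (hη1 : η < 1) (hγ : γ + η < 1) (hε : 0 < ε) :
    ∃ D N0 : ℕ, 2 ≤ D ∧ ∀ N : ℕ, N0 ≤ N → ∃ T : Finset (List ℕ), (N : ℝ) ^ η ≤ T.card ∧
      (∀ w ∈ T, Admissible w ∧ w.sum = N ∧ w.length = D) ∧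
      ∀ H : Finset (List ℕ), Disjoint T H →
      (∀ h ∈ H, Admissible h ∧ (h.sum : ℝ) ≤ κ * N ∧ ε * N ≤ height h) →
      ∀ W : Finset (List ℕ), W = {[]} ∪ T ∪ H →
      T.card + 1 ≤ Module.finrank ℚ ((W → ℚ) ⧸
        Submodule.span ℚ (relations W T H ((2 : ℝ) ^ ((N : ℝ) ^ γ)) (C ^ N))) := by
  classical
  obtain ⟨D, hD, N0, h0⟩ := Pool.Agent.R404.WZ.asyMF γ ε κ C η hη hη1 hγ hε
  refine ⟨D, max N0 (4 * D + 1), hD, fun N hN => ?_⟩
  obtain ⟨T, h1, h2, h3⟩ := h0 N (by omega)
  have hTadm : ∀ w ∈ T, Admissible w := by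
    intro w hw
    obtain ⟨e1, e2, e3⟩ := h2 w hw
    have e4 : ∀ s ∈ w, 2 ≤ s := by
      intro s hs
      by_contra hcon
      push Not at hcon
      have f1 := e3 s hs
      have f2 : 2 * D * s ≤ 2 * D * 2 := Nat.mul_le_mul_left _ hcon.le
      omega
    refine ⟨fun s hs => le_trans (by norm_num) (e4 s hs), ?_⟩
    cases w with
    | nil =>
      rw [List.length_nil] at e1
      omega
    | cons a l => exact ⟨a, by simp, e4 a List.mem_cons_self⟩
  have hne : ∀ w, Admissible w → w ≠ [] := by
    rintro w hw rfl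
    obtain ⟨a, ha, _⟩ := hw.2
    simp at ha
  refine ⟨T, h1, fun w hw => ⟨hTadm w hw, (h2 w hw).2.1, (h2 w hw).1⟩, ?_⟩
  intro H hTH hH W hW
  set A : ℝ := (2 : ℝ) ^ ((N : ℝ) ^ γ) with hA
  have hnT : [] ∉ T := fun h => hne _ (hTadm _ h) rfl
  have hnH : [] ∉ H := fun h => hne _ (hH _ h).1 rfl
  have hnTH : [] ∉ T ∪ H := by
    rw [Finset.mem_union]
    tauto
  -- the relations vanish on `T` and on the empty index
  have hvan : ∀ v ∈ relations W T H A (C ^ N), ∀ w : W, (w : List ℕ) = [] ∨ (w : List ℕ) ∈ T →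
      v w = 0 := by
    rintro v ⟨hv1, hv2, hv3, hv4⟩
    choose z hz using hv1
    set c : List ℕ → ℤ := fun w => if hw : w ∈ W then z ⟨w, hw⟩ else 0 with hc
    have hcz : ∀ w : W, c w = z w := by
      intro w
      rw [hc]
      simp only [Finset.coe_mem, dif_pos]
    have hvc : ∀ w : W, (v w : ℝ) = c w := by
      intro w
      rw [hz w, hcz w]
      simp
    have hsum : ∑ w : W, (v w : ℝ) * mzv w = (c [] : ℝ) + ∑ w ∈ T, (c w : ℝ) * mzv w +
        ∑ w ∈ H, (c w : ℝ) * mzv w := by
      have e1 : ∑ w : W, (v w : ℝ) * mzv w = ∑ w ∈ W, (c w : ℝ) * mzv w := by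
        rw [← Finset.sum_coe_sort W fun w => (c w : ℝ) * mzv w]
        exact Finset.sum_congr rfl fun w _ => by rw [hvc w]
      rw [e1, hW, Finset.union_assoc, Finset.sum_union, Finset.sum_union hTH,
        Finset.sum_singleton]
      · rw [mzv, mul_one]
        ring
      · rw [Finset.disjoint_singleton_left]
        exact hnTH
    have hWT : ∀ w ∈ T, w ∈ W := by
      intro w hw
      rw [hW]
      simp [hw]
    have hWH : ∀ w ∈ H, w ∈ W := by
      intro w hw
      rw [hW]
      simp [hw]
    by_contra hcon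
    push Not at hcon
    obtain ⟨w0, hw0, hv0⟩ := hcon
    have hc0 : c w0 ≠ 0 := by
      intro h
      apply hv0
      have h4 := hvc w0
      rw [h, Int.cast_zero] at h4
      exact_mod_cast h4
    have h4 := h3 (c []) c (by
        rcases hw0 with hw0 | hw0
        · left
          rwa [hw0] at hc0
        · exact Or.inr ⟨w0, hw0, hc0⟩) (fun w hw => by
        have h5 := hv2 ⟨w, hWT w hw⟩ hw
        rwa [hvc ⟨w, hWT w hw⟩] at h5) H (fun h hh => ⟨(hH h hh).1.1, fun x hx => by
          obtain ⟨a, ha, h5⟩ := (hH h hh).1.2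
          rw [Option.mem_def] at ha hx
          rw [ha, Option.some_inj] at hx
          rwa [← hx], (hH h hh).2.1, (hH h hh).2.2⟩) (fun w => -(c w : ℝ)) (fun w hw => by
        rw [abs_neg]
        have h5 := hv3 ⟨w, hWH w hw⟩ hw
        rwa [hvc ⟨w, hWH w hw⟩] at h5)
    rw [← mzv_eq] at h4
    have h5 : (c [] : ℝ) + ∑ w ∈ T, (c w : ℝ) * mzv w - ∑ w ∈ H, -(c w : ℝ) * mzv w = 0 := by
      have e2 : ∑ w ∈ H, -(c w : ℝ) * mzv w = -∑ w ∈ H, (c w : ℝ) * mzv w := by
        rw [← Finset.sum_neg_distrib]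
        exact Finset.sum_congr rfl fun w _ => by ring
      rw [e2, sub_neg_eq_add, ← hsum, hv4]
    rw [h5, abs_zero] at h4
    have h6 : (0 : ℝ) ≤ ((N : ℝ) ^ (ε * N))⁻¹ := by positivity
    linarith
  -- the projection
  set U : Finset (List ℕ) := insert [] T with hU
  have hUW : ∀ w ∈ U, w ∈ W := by
    intro w hw
    rw [hU, Finset.mem_insert] at hw
    rw [hW]
    rcases hw with rfl | hw
    · simp
    · simp [hw]
  set π : (W → ℚ) →ₗ[ℚ] (U → ℚ) := LinearMap.funLeft ℚ ℚ fun w : U => (⟨w, hUW w w.2⟩ : W) with hπ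
  have hπs : Function.Surjective π := by
    refine LinearMap.funLeft_surjective_of_injective ℚ ℚ _ fun a b h => ?_
    simp only [Subtype.mk.injEq] at h
    exact Subtype.ext h
  have hker : Submodule.span ℚ (relations W T H A (C ^ N)) ≤ LinearMap.ker π := by
    rw [Submodule.span_le]
    intro v hv
    rw [SetLike.mem_coe, LinearMap.mem_ker]
    funext w
    rw [hπ, LinearMap.funLeft_apply]
    refine hvan v hv _ ?_
    have h4 : (w : List ℕ) ∈ insert [] T := w.2
    exact Finset.mem_insert.1 h4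
  have hsurj : Function.Surjective
      ((Submodule.span ℚ (relations W T H A (C ^ N))).liftQ π hker) := by
    intro y
    obtain ⟨x, hx⟩ := hπs y
    exact ⟨Submodule.Quotient.mk x, by rw [Submodule.liftQ_apply, hx]⟩
  have hfin := LinearMap.finrank_le_finrank_of_surjective hsurj
  rw [Module.finrank_fintype_fun_eq_card, Fintype.card_coe, hU,
    Finset.card_insert_of_notMem hnT] at hfin
  exact hfin

end Pool.Agent.Results.MP_2000e9_nt.Corank
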