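import Mathlib
import Pool.Agent.R390.MZ.Full

set_option autoImplicit false

/-!
# Zagier's conjecture: four cases for the dimensions and the directness

By Brown's theorem the ring of multiple zeta values is the quotient of a weighted polynomial ring
`R`, with `d_k` monomials of weight `k`, by a prime ideal `P`.  Zagier's conjecture says `P = 0`.  If
`P = (f)` is principal, exactly one half of the conjecture fails: the formula for the dimensions if
`f` is homogeneous, and the directness of the sum if `f` is not homogeneous; in both cases the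
failure is given by a formula.  If `P` is not principal, it contains two relations without common
factor, and this gives an upper bound for the dimension of `Z_0 + ... + Z_k`.
-/

open Pool.Agent.R390.MZ

namespace Pool.Agent.Results.MP_2000e9_nt.FourCases

/-- `Z N` is the `ℚ`-span of all multiple zeta values
`ζ(n_1, …, n_r) = ∑_{k_1 > … > k_r ≥ 1} ∏ k_i ^ (-n_i)` (`n_i ≥ 1`, `n_1 ≥ 2`) of weight `N`; the
empty index has the value `1` and the weight `0`. (In the problem file the order of the arguments is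
reversed.) -/
noncomputable def Z (N : ℕ) : Submodule ℚ ℝ :=
  Submodule.span ℚ
    {x : ℝ | ∃ r : ℕ, ∃ n : Fin r → ℕ,
      (∀ i, 1 ≤ n i) ∧ (∀ h : 0 < r, 2 ≤ n ⟨0, h⟩) ∧ (∑ i, n i) = N ∧
      x = ∑' k : {k : Fin r → ℕ // StrictAnti k ∧ ∀ i, 1 ≤ k i},
            ∏ i, (((k.1 i : ℕ) : ℝ) ^ (n i))⁻¹}

lemma Z_ne_bot {k : ℕ} (hk : k ≠ 1) : Z k ≠ ⊥ := Zs_ne_bot hk

/-- Let `d_0 = 1`, `d_1 = 0`, `d_2 = 1`, `d_k = d_(k-2) + d_(k-3)` and `d_k = 0` for `k < 0`, and
`D_k = d_0 + ... + d_k`, `D_k = 0` for `k < 0`. Assume Brown's theorem (`Gen Z dz`). Then one of the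
following holds.
(i) Zagier's conjecture is true: the sum of the `Z_k` is direct and `dim Z_k = d_k` for all `k`.
(ii) The sum is direct, and there is `n ≥ 5` with `dim Z_k = d_k - d_(k-n)` for all `k`.
(iii) `dim Z_k = d_k` for all `k`, but the sum is not direct, and there is `n ≥ 1` with
`dim (Z_0 + ... + Z_k) = D_k - D_(k-n)` for all `k`.
(iv) There are `m ≥ n ≥ 1` with `dim (Z_0 + ... + Z_k) = D_k - D_(k-n)` for all `k < m`, and
`dim (Z_0 + ... + Z_k) ≤ D_k - D_(k-n)` and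
`dim (Z_0 + ... + Z_k) ≤ D_k - D_(k-n) - D_(k-m) + D_(k-n-m)` for all `k`. -/
theorem result (hB : Gen Z dz) :
    (iSupIndep Z ∧ ∀ k, Module.finrank ℚ (Z k) = dz k) ∨
    (iSupIndep Z ∧ ∃ n, 5 ≤ n ∧ ∀ k, Module.finrank ℚ (Z k) + sh dz n k = dz k) ∨
    (¬ iSupIndep Z ∧ (∀ k, Module.finrank ℚ (Z k) = dz k) ∧
      ∃ n, 1 ≤ n ∧
        ∀ k, Module.finrank ℚ ↥(⨆ j ∈ Set.Iic k, Z j) + sh (sumTo dz) n k = sumTo dz k) ∨
    (∃ n m, 1 ≤ n ∧ n ≤ m ∧
      (∀ k < m, Module.finrank ℚ ↥(⨆ j ∈ Set.Iic k, Z j) + sh (sumTo dz) n k = sumTo dz k) ∧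
      ∀ k, Module.finrank ℚ ↥(⨆ j ∈ Set.Iic k, Z j) + sh (sumTo dz) n k ≤ sumTo dz k ∧
      Module.finrank ℚ ↥(⨆ j ∈ Set.Iic k, Z j) + sh (sumTo dz) n k + sh (sumTo dz) m k ≤
        sumTo dz k + sh (sumTo dz) (n + m) k) := by
  obtain ⟨σ, wt, x, hd, hZ⟩ := hB
  exact tri_four hd hZ (Z_ne_bot (by norm_num)) (Z_ne_bot (by norm_num)) (Z_ne_bot (by norm_num))
    (Z_ne_bot (by norm_num))

end Pool.Agent.Results.MP_2000e9_nt.FourCases
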