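import Pool.Agent.R317.MZW

set_option autoImplicit false

/-!
# The dimension of the sum of the spaces of multiple zeta values of a set of weights

For every finite set `W` of weights `≥ 2` and every `M` in `W` the sum of the spaces of multiple zeta
values of the weights in `W` has dimension at least `min |W| (⌊2M/3⌋ - ⌈M/2⌉ + 1)`.  So any `m` different
weights `≥ 2`, one of which is at least `6 m`, span together at least `m` dimensions.
-/

open Pool.Agent.R317.MZW

namespace Pool.Agent.Results.MP_2000e9_nt.WeightSets

/-- `Z N` is the `ℚ`-span of the multiple zeta values of weight `N` (`Pool.Agent.R317.MZW.Z`) -/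
theorem result (W : Finset ℕ) (hW : ∀ n ∈ W, 2 ≤ n) (M : ℕ) (hM : M ∈ W) :
    ((min W.card (2 * M / 3 + 1 - (M + 1) / 2) : ℕ) : Cardinal) ≤
      Module.rank ℚ ↥(⨆ n ∈ W, Z n) :=
  Pool.Agent.R317.Mon.anyset (mon_mem W) pi_sq_tr not_linear hW hM

end Pool.Agent.Results.MP_2000e9_nt.WeightSets
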