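import Pool.Agent.R317.MZW

set_option autoImplicit false

/-!
# The dimension of the sum of the spaces of multiple zeta values of consecutive weights

The sum of the spaces of multiple zeta values of the weights `N, N + 1, …, M` has dimension at least
`min (M - N + 1) (⌊2M/3⌋ - ⌈N/3⌉ + 1)` over `ℚ`; in particular `k + 1` consecutive weights
`N, …, N + k` with `k ≤ N - 2` span a space of dimension at least `k + 1`.
-/

open Pool.Agent.R317.MZW

namespace Pool.Agent.Results.MP_2000e9_nt.Windows

/-- `Z N` is the `ℚ`-span of the multiple zeta values of weight `N` (`Pool.Agent.R317.MZW.Z`) -/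
theorem result (N M : ℕ) (hN : 2 ≤ N) (hNM : N ≤ M) (hne : ¬ (N = 3 ∧ M = 5)) :
    ((min (M + 1 - N) (2 * M / 3 + 1 - (N + 2) / 3) : ℕ) : Cardinal) ≤
      Module.rank ℚ ↥(⨆ n ∈ Finset.Icc N M, Z n) :=
  Pool.Agent.R317.Mon.window (mon_mem _) pi_sq_tr not_linear not_pi_four hN hNM hne

end Pool.Agent.Results.MP_2000e9_nt.Windows
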